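import Pool.Agent.L7h80.RC.StmB
import Pool.Agent.L7h45.RC.De

/-!
# Project RD, part FIN: `P / p` is finite over the power series in one variable
-/

set_option autoImplicit false

namespace Pool.Agent.L7h77.RC

open MvPowerSeries Pool.Agent.L7h80.RC

variable {n : ℕ}

/-- finitely many series span modulo a power of the ideal of the variables -/
theorem fam (K : ℕ) : ∃ (ι : Type) (_ : Fintype ι) (b : ι → PS n), ∀ f : PS n, ∃ a : ι → ℂ,
    f - ∑ j, C (a j) * b j ∈ mI n ^ K := by
  induction K with
  | zero =>
    refine ⟨Empty, inferInstance, fun j => j.elim, fun f => ⟨fun j => j.elim, ?_⟩⟩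
    rw [pow_zero, Ideal.one_eq_top]
    exact Submodule.mem_top
  | succ K ih =>
    obtain ⟨ι, _, b, hb⟩ := ih
    refine ⟨Option (Fin n × ι), inferInstance, fun o => match o with
      | none => 1
      | some q => X q.1 * b q.2, fun f => ?_⟩
    have h1 : constantCoeff (f - C (constantCoeff f)) = 0 := by
      rw [map_sub, constantCoeff_C, sub_self]
    obtain ⟨g, hg⟩ := Ideal.mem_span_range_iff_exists_fun.1
      (Pool.Agent.L7h45.RC.s_SP n (f - C (constantCoeff f)) h1)
    choose a ha using fun i => hb (g i)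
    refine ⟨fun o => match o with
      | none => constantCoeff f
      | some q => a q.1 q.2, ?_⟩
    rw [Fintype.sum_option, Fintype.sum_prod_type]
    have h2 : f - (C (constantCoeff f) * 1 + ∑ i : Fin n, ∑ j : ι, C (a i j) * (X i * b j)) =
        ∑ i : Fin n, X i * (g i - ∑ j, C (a i j) * b j) := by
      rw [mul_one, ← sub_sub, ← hg, ← Finset.sum_sub_distrib]
      refine Finset.sum_congr rfl fun i _ => ?_
      rw [mul_sub, Finset.mul_sum]
      congr 1
      · ring
      · refine Finset.sum_congr rfl fun j _ => ?_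
        ring
    show f - (C (constantCoeff f) * 1 + ∑ i : Fin n, ∑ j : ι, C (a i j) * (X i * b j)) ∈ _
    rw [h2, pow_succ']
    exact Ideal.sum_mem _ fun i _ => Ideal.mul_mem_mul (Ideal.subset_span ⟨i, rfl⟩) (ha i)

theorem s_FIN : S_FIN := by
  intro n p hp i0 hX hK
  obtain ⟨K, hK⟩ := hK
  obtain ⟨ι, _, b, hb⟩ := fam (n := n) K
  have step : ∀ f : PS n, ∃ (a : ι → ℂ) (g : PS n), f - ∑ j, C (a j) * b j - X i0 * g ∈ p := by
    intro f
    obtain ⟨a, ha⟩ := hb f
    obtain ⟨y, hy, z, hz, hyz⟩ := Submodule.mem_sup.1 (hK ha)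
    obtain ⟨g, hg⟩ := Ideal.mem_span_singleton'.1 hz
    refine ⟨a, g, ?_⟩
    rw [← hyz, ← hg]
    have : y + g * X i0 - X i0 * g = y := by ring
    rw [this]
    exact hy
  choose A F hF using step
  have hS : PowerSeries.HasSubst (X i0 : PS n) :=
    PowerSeries.HasSubst.of_constantCoeff_zero (constantCoeff_X i0)
  set S : PowerSeries ℂ →ₐ[ℂ] PS n := PowerSeries.substAlgHom hS with hSdef
  have hSX : S PowerSeries.X = X i0 := by
    rw [hSdef, PowerSeries.coe_substAlgHom, PowerSeries.subst_X hS]
  have hSC : ∀ a : ℂ, S (PowerSeries.C a) = C a := by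
    intro a
    have h1 : (PowerSeries.C a : PowerSeries ℂ) = algebraMap ℂ (PowerSeries ℂ) a := rfl
    rw [h1, AlgHom.commutes]
    rfl
  -- the coefficients
  have key : ∀ f : PS n, f - ∑ j, S (PowerSeries.mk fun i => A (F^[i] f) j) * b j ∈ p := by
    intro f
    set c : ℕ → ι → PowerSeries ℂ := fun k j => PowerSeries.mk fun i => A (F^[k + i] f) j with hc
    have hrec : ∀ k j, S (c k j) = C (A (F^[k] f) j) + X i0 * S (c (k + 1) j) := by
      intro k j
      have h1 : c k j = PowerSeries.X * c (k + 1) j + PowerSeries.C (A (F^[k] f) j) := by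
        have h2 := PowerSeries.eq_X_mul_shift_add_const (c k j)
        have h3 : (PowerSeries.mk fun q => (PowerSeries.coeff (q + 1)) (c k j)) = c (k + 1) j := by
          ext q
          rw [PowerSeries.coeff_mk, hc, PowerSeries.coeff_mk, PowerSeries.coeff_mk]
          have e1 : k + (q + 1) = k + 1 + q := by omega
          rw [e1]
        have h4 : PowerSeries.constantCoeff (c k j) = A (F^[k] f) j := by
          rw [← PowerSeries.coeff_zero_eq_constantCoeff_apply, hc, PowerSeries.coeff_mk, add_zero]
        rw [h3, h4] at h2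
        exact h2
      rw [h1, map_add, map_mul, hSX, hSC]
      ring
    set g : ℕ → PS n := fun k => F^[k] f - ∑ j, S (c k j) * b j with hg
    have hgstep : ∀ k, g k - X i0 * g (k + 1) ∈ p := by
      intro k
      have h1 : g k - X i0 * g (k + 1) =
          F^[k] f - ∑ j, C (A (F^[k] f) j) * b j - X i0 * F (F^[k] f) := by
        have h2 : F^[k + 1] f = F (F^[k] f) := Function.iterate_succ_apply' F k f
        simp only [hg]
        rw [h2, mul_sub, Finset.mul_sum]
        have h3 : ∑ j, S (c k j) * b j = ∑ j, C (A (F^[k] f) j) * b j +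
            ∑ j, X i0 * (S (c (k + 1) j) * b j) := by
          rw [← Finset.sum_add_distrib]
          refine Finset.sum_congr rfl fun j _ => ?_
          rw [hrec]
          ring
        rw [h3]
        ring
      rw [h1]
      exact hF _
    have hgN : ∀ N, g 0 - X i0 ^ N * g N ∈ p := by
      intro N
      induction N with
      | zero =>
        have : g 0 - X i0 ^ 0 * g 0 = 0 := by ring
        rw [this]
        exact p.zero_mem
      | succ N ih =>
        have h1 : g 0 - X i0 ^ (N + 1) * g (N + 1) =
            (g 0 - X i0 ^ N * g N) + X i0 ^ N * (g N - X i0 * g (N + 1)) := by ring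
        rw [h1]
        exact p.add_mem ih (p.mul_mem_left _ (hgstep N))
    -- Krull
    have hne : Ideal.span {Ideal.Quotient.mk p (X i0)} ≠ ⊤ := by
      intro h
      have h1 : (1 : PS n ⧸ p) ∈ Ideal.span {Ideal.Quotient.mk p (X i0)} := by
        rw [h]; exact Submodule.mem_top
      obtain ⟨y, hy⟩ := Ideal.mem_span_singleton'.1 h1
      obtain ⟨y, rfl⟩ := Ideal.Quotient.mk_surjective y
      have h2 : y * X i0 - 1 ∈ p := by
        rw [← Ideal.Quotient.eq_zero_iff_mem, map_sub, map_mul, hy, map_one, sub_self]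
      have h3 := constantCoeff_of_mem hp.ne_top h2
      rw [map_sub, map_mul, constantCoeff_X, mul_zero, map_one] at h3
      norm_num at h3
    have hdom : IsDomain (PS n ⧸ p) := Ideal.Quotient.isDomain p
    have hinf := Ideal.iInf_pow_eq_bot_of_isDomain (Ideal.span {Ideal.Quotient.mk p (X i0)}) hne
    have hmem : Ideal.Quotient.mk p (g 0) ∈ ⨅ N, Ideal.span {Ideal.Quotient.mk p (X i0)} ^ N := by
      rw [Submodule.mem_iInf]
      intro N
      have h1 : Ideal.Quotient.mk p (g 0) =
          Ideal.Quotient.mk p (g N) * Ideal.Quotient.mk p (X i0) ^ N := by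
        have h2 := Ideal.Quotient.eq_zero_iff_mem.2 (hgN N)
        rw [map_sub, map_mul, map_pow, sub_eq_zero] at h2
        rw [h2, mul_comm]
      rw [h1]
      have h6 : Ideal.Quotient.mk p (X i0) ∈ Ideal.span {Ideal.Quotient.mk p (X i0)} :=
        Ideal.mem_span_singleton_self _
      have h7 := Ideal.pow_mem_pow h6 N
      exact Ideal.mul_mem_left _ _ h7
    rw [hinf] at hmem
    have h0 := Ideal.Quotient.eq_zero_iff_mem.1 ((Submodule.mem_bot _).1 hmem)
    have h5 : g 0 = f - ∑ j, S (PowerSeries.mk fun i => A (F^[i] f) j) * b j := by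
      simp only [hg, hc, Function.iterate_zero, id_eq, zero_add]
    rw [h5] at h0
    exact h0
  let e := Fintype.equivFin ι
  refine ⟨Fintype.card ι, fun j => b (e.symm j), fun f =>
    ⟨fun j => PowerSeries.mk fun i => A (F^[i] f) (e.symm j), ?_⟩⟩
  have h1 : ∑ j : Fin (Fintype.card ι), PowerSeries.subst (X i0 : PS n)
      (PowerSeries.mk fun i => A (F^[i] f) (e.symm j)) * b (e.symm j) =
      ∑ j, S (PowerSeries.mk fun i => A (F^[i] f) j) * b j := by
    rw [← Equiv.sum_comp e.symm (fun j => S (PowerSeries.mk fun i => A (F^[i] f) j) * b j)]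
    refine Finset.sum_congr rfl fun j _ => ?_
    rw [hSdef, PowerSeries.coe_substAlgHom]
  rw [h1]
  exact key f

end Pool.Agent.L7h77.RC
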